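import Mathlib
import Pool.Agent.Helper707.Rel

/-!
The automaton which recognises the halting configurations of a generalised Collatz map.
Letters: `0` is the left marker, `1` the right marker, `2` the left counter, `3` the right
counter, `4` the search letter, `5` the halting letter, `6 + i` the transfer letters.
-/

namespace Pool.Agent.Y584.EqProb

open Pool.Agent.Helper707.Rel

/-- the states -/
inductive St
  | start
  | left (a : ℕ)
  | rr (i N : ℕ)
  | hh
  | fin
  | dead

open scoped Classical in
/-- one step of the automaton -/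
noncomputable def step (Y : Sys) (s : St) (l : ℕ) : St :=
  match s with
  | .start => if l = 0 then .left 0 else .dead
  | .left a =>
    if l = 2 then .left (a + 1)
    else if l = 4 then
      (if Y.H (a % Y.m) = true then .hh else .rr (a % Y.m) (Y.a (a % Y.m) * (a / Y.m) + Y.e (a % Y.m)))
    else if l = 5 then .hh
    else if 6 ≤ l then .rr (l - 6) (a + Y.e (l - 6))
    else .dead
  | .rr i N =>
    if l = 3 then .rr i (N + Y.a i)
    else if l = 1 then (if Y.Halts N then .fin else .dead)
    else .dead
  | .hh => if l = 3 then .hh else if l = 1 then .fin else .dead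
  | .fin => .dead
  | .dead => .dead

/-- the run of the automaton from a state -/
noncomputable def runFrom (Y : Sys) (s : St) (w : List ℕ) : St := w.foldl (step Y) s

variable (Y : Sys)

@[simp] theorem runFrom_nil (s : St) : runFrom Y s [] = s := rfl

@[simp] theorem runFrom_cons (s : St) (l : ℕ) (w : List ℕ) :
    runFrom Y s (l :: w) = runFrom Y (step Y s l) w := rfl

@[simp] theorem runFrom_append (s : St) (u w : List ℕ) :
    runFrom Y s (u ++ w) = runFrom Y (runFrom Y s u) w := List.foldl_append

@[simp] theorem step_six (a i : ℕ) : step Y (.left a) (6 + i) = .rr i (a + Y.e i) := by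
  have h : 6 + i - 6 = i := by omega
  simp only [step]
  rw [if_neg (by omega), if_neg (by omega), if_neg (by omega), if_pos (by omega), h]

@[simp] theorem step_dead (l : ℕ) : step Y .dead l = .dead := rfl
@[simp] theorem step_fin (l : ℕ) : step Y .fin l = .dead := rfl

@[simp] theorem runFrom_dead (w : List ℕ) : runFrom Y .dead w = .dead := by
  induction w with
  | nil => rfl
  | cons l w ih => simpa using ih

theorem runFrom_left_rep (a k : ℕ) : runFrom Y (.left a) (List.replicate k 2) = .left (a + k) := by
  induction k generalizing a with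
  | zero => rfl
  | succ k ih =>
    rw [List.replicate_succ, runFrom_cons]
    simp only [step, if_true]
    rw [ih]; congr 1; omega

/-- outside the left part a power of the left counter followed by a letter which is at least
four kills everything -/
theorem runFrom_rep_of_not_left (s : St) (hs : ∀ a, s ≠ .left a) (k l : ℕ) (hl : 4 ≤ l) :
    step Y (runFrom Y s (List.replicate k 2)) l = .dead := by
  cases k with
  | zero =>
    cases s with
    | start => simp only [List.replicate_zero, runFrom_nil, step]; rw [if_neg (by omega)]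
    | left a => exact absurd rfl (hs a)
    | rr i N =>
      simp only [List.replicate_zero, runFrom_nil, step]; rw [if_neg (by omega), if_neg (by omega)]
    | hh => simp only [List.replicate_zero, runFrom_nil, step]; rw [if_neg (by omega), if_neg (by omega)]
    | fin => rfl
    | dead => rfl
  | succ k =>
    rw [List.replicate_succ, runFrom_cons]
    have : step Y s 2 = .dead := by
      cases s with
      | left a => exact absurd rfl (hs a)
      | _ => simp [step]
    rw [this, runFrom_dead]; rfl

/-- two words act in the same way on all states -/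
def Eqv (u v : List ℕ) : Prop := ∀ s : St, runFrom Y s u = runFrom Y s v

theorem eqv_of_left {u v : List ℕ} {k l k' l' : ℕ} {t t' : List ℕ} (hu : u = List.replicate k 2 ++ l :: t)
    (hv : v = List.replicate k' 2 ++ l' :: t') (hl : 4 ≤ l) (hl' : 4 ≤ l')
    (h : ∀ a, runFrom Y (.left a) u = runFrom Y (.left a) v) : Eqv Y u v := by
  intro s
  by_cases hs : ∃ a, s = .left a
  · obtain ⟨a, rfl⟩ := hs; exact h a
  · have hs' : ∀ a, s ≠ .left a := fun a ha => hs ⟨a, ha⟩
    rw [hu, hv, runFrom_append, runFrom_append, runFrom_cons, runFrom_cons,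
      runFrom_rep_of_not_left Y s hs' k l hl, runFrom_rep_of_not_left Y s hs' k' l' hl',
      runFrom_dead, runFrom_dead]

theorem eqv_of_start {u v : List ℕ} (h : runFrom Y (.left 0) u = runFrom Y (.left 0) v) :
    Eqv Y (0 :: u) (0 :: v) := by
  intro s
  rw [runFrom_cons, runFrom_cons]
  cases s with
  | start => simpa [step] using h
  | _ => simp [step]

/-- the left counter is divided -/
theorem eqv_s (hm : 0 < Y.m) : Eqv Y (List.replicate Y.m 2 ++ [4]) [4, 3] := by
  refine eqv_of_left Y (k := Y.m) (k' := 0) (l := 4) (l' := 4) (t := []) (t' := [3]) rfl rfl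
    le_rfl le_rfl fun a => ?_
  rw [runFrom_append, runFrom_left_rep]
  have h1 : (a + Y.m) % Y.m = a % Y.m := Nat.add_mod_right a Y.m
  have h2 : (a + Y.m) / Y.m = a / Y.m + 1 := Nat.add_div_right a hm
  by_cases hH : Y.H (a % Y.m) = true
  · simp [step, h1, hH]
  · simp [step, h1, h2, hH]; ring

/-- the halting letter absorbs the right counter -/
theorem eqv_h : Eqv Y [5, 3] [5] := by
  refine eqv_of_left Y (k := 0) (k' := 0) (l := 5) (l' := 5) (t := [3]) (t' := []) rfl rfl
    (by omega) (by omega) fun a => ?_
  simp [step]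

/-- a halting residue -/
theorem eqv_halt {i : ℕ} (hi : i < Y.m) (hH : Y.H i = true) :
    Eqv Y (0 :: (List.replicate i 2 ++ [4])) [0, 5] := by
  refine eqv_of_start Y ?_
  rw [runFrom_append, runFrom_left_rep]
  simp [step, Nat.mod_eq_of_lt hi, hH]

/-- a working residue -/
theorem eqv_work {i : ℕ} (hi : i < Y.m) (hH : Y.H i = false) :
    Eqv Y (0 :: (List.replicate i 2 ++ [4])) [0, 6 + i] := by
  refine eqv_of_start Y ?_
  rw [runFrom_append, runFrom_left_rep, runFrom_cons, runFrom_cons, step_six]
  simp [step, Nat.mod_eq_of_lt hi, hH, Nat.div_eq_of_lt hi]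

/-- the transfer -/
theorem eqv_move (i : ℕ) : Eqv Y [6 + i, 3] (List.replicate (Y.a i) 2 ++ [6 + i]) := by
  refine eqv_of_left Y (k := 0) (k' := Y.a i) (l := 6 + i) (l' := 6 + i) (t := [3]) (t' := [])
    rfl rfl (by omega) (by omega) fun a => ?_
  simp only [runFrom_append, runFrom_left_rep, runFrom_cons, runFrom_nil, step_six]
  simp [step]
  omega

theorem halts_next {N : ℕ} (hH : ¬ Y.H (N % Y.m) = true) : Y.Halts N ↔ Y.Halts (Y.next N) := by
  constructor
  · intro h
    cases h with
    | halt _ h => exact absurd h hH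
    | step _ _ h => exact h
  · intro h
    exact .step N (by simpa using hH) h

/-- the end of the transfer -/
theorem eqv_end (i : ℕ) : Eqv Y [6 + i, 1] (List.replicate (Y.e i) 2 ++ [4, 1]) := by
  refine eqv_of_left Y (k := 0) (k' := Y.e i) (l := 6 + i) (l' := 4) (t := [1]) (t' := [1])
    rfl rfl (by omega) (by omega) fun a => ?_
  rw [runFrom_append, runFrom_left_rep, runFrom_cons, step_six]
  by_cases hH : Y.H ((a + Y.e i) % Y.m) = true
  · have : Y.Halts (a + Y.e i) := .halt _ hH
    simp [step, hH, this]
  · have := halts_next Y hH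
    simp only [Sys.next] at this
    by_cases hN : Y.Halts (a + Y.e i)
    · have h' := this.1 hN
      simpa [step, hH, hN] using h'
    · have h' := fun h => hN (this.2 h)
      simpa [step, hH, hN] using h'

/-- the word of a number -/
theorem run_num {N : ℕ} (hN : ¬ Y.Halts N) :
    runFrom Y .start (0 :: (List.replicate N 2 ++ [4, 1])) = .dead := by
  have hH : ¬ Y.H (N % Y.m) = true := fun h => hN (.halt _ h)
  have h1 := halts_next Y hH
  simp only [Sys.next] at h1
  rw [runFrom_cons]
  have : step Y .start 0 = .left 0 := rfl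
  rw [this, runFrom_append, runFrom_left_rep]
  simp [step, hH, ← h1, hN]

theorem run_halt : runFrom Y .start [0, 5, 1] = .fin := by simp [step]

/-- the configuration words -/
def cfg (a τ b : ℕ) : List ℕ := 0 :: (List.replicate a 2 ++ τ :: (List.replicate b 3 ++ [1]))

theorem rep_snoc (k l : ℕ) : List.replicate k l ++ [l] = List.replicate (k + 1) l := by
  rw [List.replicate_succ']

/-- the shape of the words that are not killed -/
def Shape (s : St) (w : List ℕ) : Prop :=
  match s with
  | .start => w = []
  | .left a => w = 0 :: List.replicate a 2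
  | .rr _ _ => ∃ a b τ, 4 ≤ τ ∧ w = 0 :: (List.replicate a 2 ++ τ :: List.replicate b 3)
  | .hh => ∃ a b τ, 4 ≤ τ ∧ w = 0 :: (List.replicate a 2 ++ τ :: List.replicate b 3)
  | .fin => ∃ a b τ, 4 ≤ τ ∧ w = cfg a τ b
  | .dead => True

theorem shape_step {s : St} {w : List ℕ} (h : Shape s w) (l : ℕ) :
    Shape (step Y s l) (w ++ [l]) := by
  cases s with
  | start =>
    simp only [Shape] at h
    subst h
    simp only [step]
    split_ifs with h0
    · subst h0; simp [Shape]
    · trivial
  | left a =>
    simp only [Shape] at h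
    subst h
    simp only [step]
    split_ifs with h2 h4 hH h5 h6
    · subst h2
      simp only [Shape, List.cons_append, rep_snoc]
    · subst h4; exact ⟨a, 0, 4, le_rfl, by simp⟩
    · subst h4; exact ⟨a, 0, 4, le_rfl, by simp⟩
    · subst h5; exact ⟨a, 0, 5, by omega, by simp⟩
    · exact ⟨a, 0, l, by omega, by simp⟩
    · trivial
  | rr i N =>
    obtain ⟨a, b, τ, hτ, rfl⟩ := h
    simp only [step]
    split_ifs with h3 h1 hN
    · subst h3
      refine ⟨a, b + 1, τ, hτ, ?_⟩
      simp only [List.cons_append, List.append_assoc, rep_snoc]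
    · subst h1; exact ⟨a, b, τ, hτ, by simp [cfg]⟩
    · trivial
    · trivial
  | hh =>
    obtain ⟨a, b, τ, hτ, rfl⟩ := h
    simp only [step]
    split_ifs with h3 h1
    · subst h3
      refine ⟨a, b + 1, τ, hτ, ?_⟩
      simp only [List.cons_append, List.append_assoc, rep_snoc]
    · subst h1; exact ⟨a, b, τ, hτ, by simp [cfg]⟩
    · trivial
  | fin => trivial
  | dead => trivial

theorem shape_run (w : List ℕ) : Shape (runFrom Y .start w) w := by
  induction w using List.reverseRecOn with
  | nil => rfl
  | append_singleton w l ih =>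
    rw [runFrom_append]
    exact shape_step Y ih l

/-- the unit attached to a letter -/
def typ (f l : ℕ) : ℕ × ℕ :=
  if l = 0 then (0, 1) else if l = 1 then (2, f) else if l = 2 then (1, 1)
  else if l = 3 then (2, 2) else (1, 2)

/-- the run of the units -/
def pth (f : ℕ) (o : Option ℕ) (w : List ℕ) : Option ℕ :=
  w.foldl (fun o l => if o = some (typ f l).1 then some (typ f l).2 else none) o

theorem pth_none (f : ℕ) (w : List ℕ) : pth f none w = none := by
  induction w with
  | nil => rfl
  | cons l w ih => simpa [pth] using ih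

theorem pth_snoc (f : ℕ) (o : Option ℕ) (w : List ℕ) (l : ℕ) :
    pth f o (w ++ [l]) = if pth f o w = some (typ f l).1 then some (typ f l).2 else none := by
  simp only [pth, List.foldl_append, List.foldl_cons, List.foldl_nil]
  congr

theorem pth_shape {f : ℕ} (hf1 : f ≠ 1) (hf2 : f ≠ 2) (w : List ℕ) (hc : w.count 0 ≤ 1) (j : ℕ)
    (h : pth f (some 0) w = some j) :
    (j = 0 ∧ w = []) ∨ (j = 1 ∧ ∃ a, w = 0 :: List.replicate a 2) ∨
    (j = 2 ∧ ∃ a b τ, 4 ≤ τ ∧ w = 0 :: (List.replicate a 2 ++ τ :: List.replicate b 3)) ∨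
    (j = f ∧ ∃ a b τ, 4 ≤ τ ∧ w = cfg a τ b) := by
  induction w using List.reverseRecOn generalizing j with
  | nil => left; simp [pth] at h; exact ⟨h.symm, rfl⟩
  | append_singleton w l ih =>
    rw [pth_snoc] at h
    split_ifs at h with hp
    have hj : (typ f l).2 = j := by simpa using h
    have hcw : w.count 0 ≤ 1 := by
      rw [List.count_append] at hc; omega
    have := ih hcw _ hp
    by_cases h0 : l = 0
    · subst h0
      have hc0 : w.count 0 = 0 := by
        rw [List.count_append] at hc; simp at hc; exact hc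
      simp only [typ, if_true] at this hj
      rcases this with ⟨_, rfl⟩ | ⟨h1, _⟩ | ⟨h1, _⟩ | ⟨_, a, b, τ, _, rfl⟩
      · right; left; exact ⟨hj.symm, 0, rfl⟩
      · omega
      · omega
      · simp [cfg] at hc0
    by_cases h1 : l = 1
    · subst h1
      simp only [typ, if_true, one_ne_zero, if_false] at this hj
      rcases this with ⟨h1, _⟩ | ⟨h1, _⟩ | ⟨_, a, b, τ, hτ, rfl⟩ | ⟨h1, _⟩
      · omega
      · omega
      · right; right; right; exact ⟨hj.symm, a, b, τ, hτ, by simp [cfg]⟩
      · omega
    by_cases h2 : l = 2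
    · subst h2
      simp [typ] at this hj
      rcases this with ⟨a, rfl⟩ | ⟨h1, _⟩
      · right; left; exact ⟨hj.symm, a + 1, by rw [List.cons_append, rep_snoc]⟩
      · omega
    by_cases h3 : l = 3
    · subst h3
      simp [typ] at this hj
      rcases this with ⟨a, b, τ, hτ, rfl⟩ | ⟨h1, _⟩
      · right; right; left
        exact ⟨hj.symm, a, b + 1, τ, hτ, by simp only [List.cons_append, List.append_assoc, rep_snoc]⟩
      · omega
    · simp [typ, h0, h1, h2, h3] at this hj
      rcases this with ⟨a, rfl⟩ | ⟨h1, _⟩
      · right; right; left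
        exact ⟨hj.symm, a, 0, l, by omega, by simp⟩
      · omega

theorem cfg_perm {a τ b a' τ' b' : ℕ} (hτ : 4 ≤ τ) (hτ' : 4 ≤ τ')
    (h : (cfg a τ b).Perm (cfg a' τ' b')) : cfg a τ b = cfg a' τ' b' := by
  have h2 := h.count_eq 2
  have h3 := h.count_eq 3
  have h4 := h.mem_iff (a := τ)
  have e1 : τ ≠ 2 := by omega
  have e2 : τ' ≠ 2 := by omega
  have e3 : τ ≠ 3 := by omega
  have e4 : τ' ≠ 3 := by omega
  simp [cfg, List.count_replicate, e1, e2, e3, e4] at h2 h3
  subst h2 h3
  have h5 : τ = τ' := by
    have : τ ∈ cfg a τ' b := h4.1 (by simp [cfg])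
    simp only [cfg, List.mem_cons, List.mem_append, List.mem_replicate, List.not_mem_nil] at this
    rcases this with h | ⟨_, h⟩ | h | ⟨_, h⟩ | h | h
    · omega
    · omega
    · exact h
    · omega
    · omega
    · exact h.elim
  rw [h5]

/-- words with the same letters as a recognised word, along a path of units, are recognised -/
theorem run_of_perm {f : ℕ} (hf1 : f ≠ 1) (hf2 : f ≠ 2) {w w' : List ℕ}
    (hp : pth f (some 0) w = some f) (hr : runFrom Y .start w' = .fin) (h : w'.Perm w) :
    w = w' := by
  have h1 := shape_run Y w'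
  rw [hr] at h1
  obtain ⟨a, b, τ, hτ, rfl⟩ := h1
  have hc : w.count 0 = 1 := by
    rw [← h.count_eq 0]
    have : τ ≠ 0 := by omega
    simp [cfg, List.count_replicate, this]
  rcases pth_shape hf1 hf2 w hc.le f hp with ⟨_, rfl⟩ | ⟨h1, _⟩ | ⟨h1, _⟩ | ⟨_, a', b', τ', hτ', rfl⟩
  · simp at hc
  · omega
  · omega
  · exact (cfg_perm hτ hτ' h).symm

theorem pth_rep (f a : ℕ) : pth f (some 1) (List.replicate a 2) = some 1 := by
  induction a with
  | zero => rfl
  | succ a ih => rw [List.replicate_succ]; simpa [pth, typ] using ih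

theorem pth_rep' (f a : ℕ) : pth f (some 2) (List.replicate a 3) = some 2 := by
  induction a with
  | zero => rfl
  | succ a ih => rw [List.replicate_succ]; simpa [pth, typ] using ih

theorem pth_append (f : ℕ) (o : Option ℕ) (u w : List ℕ) : pth f o (u ++ w) = pth f (pth f o u) w :=
  List.foldl_append

theorem pth_cons (f : ℕ) (o : Option ℕ) (l : ℕ) (w : List ℕ) :
    pth f o (l :: w) = pth f (if o = some (typ f l).1 then some (typ f l).2 else none) w := rfl

theorem pth_cfg {f : ℕ} {a τ b : ℕ} (hτ : 4 ≤ τ) : pth f (some 0) (cfg a τ b) = some f := by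
  rw [cfg, pth_cons, pth_append]
  have h1 : typ f 0 = (0, 1) := rfl
  rw [h1, if_pos rfl, pth_rep, pth_cons]
  have h2 : typ f τ = (1, 2) := by
    simp only [typ]
    rw [if_neg (by omega), if_neg (by omega), if_neg (by omega), if_neg (by omega)]
  rw [h2, if_pos rfl, pth_append, pth_rep', pth_cons]
  have h3 : typ f 1 = (2, f) := rfl
  rw [h3, if_pos rfl]
  rfl

theorem pth_of_run {f : ℕ} {w : List ℕ} (hr : runFrom Y .start w = .fin) :
    pth f (some 0) w = some f := by
  have h1 := shape_run Y w
  rw [hr] at h1
  obtain ⟨a, b, τ, hτ, rfl⟩ := h1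
  exact pth_cfg hτ

end Pool.Agent.Y584.EqProb
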