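import Mathlib

/-!
Noncommutative polynomials without constant term, the varieties `M(n)` and `S(n)` of associative
algebras, and the quasi-identities that hold in them.
-/

namespace Pool.Agent.Y584.EqProb

universe u

/-- the product of the members of a nonempty list, in the order of the list; the value of the
empty list is `0` -/
def prodList {A : Type*} [Mul A] [Zero A] : List A → A
  | [] => 0
  | a :: l => l.foldl (fun x y => x * y) a

/-- noncommutative polynomials without constant term in the variables `x_0, x_1, ...`: finite lists
of terms, a term being a coefficient and a word (a list of indices of variables); a term with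
the empty word stands for `0` -/
abbrev NCPoly (K : Type*) := List (K × List ℕ)

/-- the value of a polynomial -/
def eval {K A : Type*} [NonUnitalRing A] [SMul K A] (v : ℕ → A) (p : NCPoly K) : A :=
  (p.map fun t => t.1 • prodList (t.2.map v)).sum

section

variable (F : Type u) [Field F]

/-- the algebra `A` satisfies all polynomial identities of the algebra of `n × n` matrices: it
belongs to the variety `M(n)` -/
def InM (n : ℕ) (A : Type u) [NonUnitalRing A] [Module F A] : Prop :=
  ∀ p : NCPoly F, (∀ v : ℕ → Matrix (Fin n) (Fin n) F, eval v p = 0) → ∀ v : ℕ → A, eval v p = 0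

/-- the algebra `A` satisfies the standard identity of degree `n`: it belongs to the
variety `S(n)` -/
def InS (n : ℕ) (A : Type u) [NonUnitalRing A] : Prop :=
  ∀ v : Fin n → A,
    ∑ σ : Equiv.Perm (Fin n), (Equiv.Perm.sign σ : ℤ) • prodList (List.ofFn fun i => v (σ i)) = 0

/-- the quasi-identity with the hypotheses `q.1` and the conclusion `q.2` holds in `A` -/
def HoldsIn (q : List (NCPoly ℤ) × NCPoly ℤ) (A : Type u) [NonUnitalRing A] : Prop :=
  ∀ v : ℕ → A, (∀ u ∈ q.1, eval v u = 0) → eval v q.2 = 0

/-- the quasi-identity holds in all algebras of the variety `M(n)` over `F` -/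
def HoldsM (n : ℕ) (q : List (NCPoly ℤ) × NCPoly ℤ) : Prop :=
  ∀ (A : Type u) [NonUnitalRing A] [Module F A] [IsScalarTower F A A] [SMulCommClass F A A],
    InM F n A → HoldsIn q A

/-- the quasi-identity holds in all algebras of the variety `S(n)` over `F` -/
def HoldsS (n : ℕ) (q : List (NCPoly ℤ) × NCPoly ℤ) : Prop :=
  ∀ (A : Type u) [NonUnitalRing A] [Module F A] [IsScalarTower F A A] [SMulCommClass F A A],
    InS n A → HoldsIn q A

end

theorem foldl_mul {M : Type*} [Monoid M] (a : M) (l : List M) :
    l.foldl (fun x y => x * y) a = a * l.prod := by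
  induction l generalizing a with
  | nil => simp
  | cons b l ih => rw [List.foldl_cons, ih, List.prod_cons, mul_assoc]

theorem prodList_eq {A : Type*} [Ring A] {l : List A} (h : l ≠ []) : prodList l = l.prod := by
  cases l with
  | nil => exact absurd rfl h
  | cons a l => rw [prodList, foldl_mul, List.prod_cons]

theorem map_foldl_mul {A B : Type*} [Mul A] [Mul B] (f : A → B)
    (hmul : ∀ x y, f (x * y) = f x * f y) (a : A) (l : List A) :
    f (l.foldl (fun x y => x * y) a) = (l.map f).foldl (fun x y => x * y) (f a) := by
  induction l generalizing a with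
  | nil => rfl
  | cons b l ih => rw [List.foldl_cons, ih, List.map_cons, List.foldl_cons, hmul]

theorem map_prodList {A B : Type*} [NonUnitalRing A] [NonUnitalRing B] (f : A → B)
    (h0 : f 0 = 0) (hmul : ∀ x y, f (x * y) = f x * f y) (l : List A) :
    f (prodList l) = prodList (l.map f) := by
  cases l with
  | nil => exact h0
  | cons a l => exact map_foldl_mul f hmul a l

theorem eval_map {K A B : Type*} [NonUnitalRing A] [NonUnitalRing B] [SMul K A] [SMul K B]
    (f : A → B) (h0 : f 0 = 0) (hadd : ∀ x y, f (x + y) = f x + f y)
    (hmul : ∀ x y, f (x * y) = f x * f y) (hsmul : ∀ (k : K) x, f (k • x) = k • f x)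
    (v : ℕ → A) (p : NCPoly K) : f (eval v p) = eval (fun i => f (v i)) p := by
  induction p with
  | nil => simpa [eval] using h0
  | cons t p ih =>
    have h : eval v (t :: p) = t.1 • prodList (t.2.map v) + eval v p := by simp [eval]
    have h' : eval (fun i => f (v i)) (t :: p)
        = t.1 • prodList (t.2.map fun i => f (v i)) + eval (fun i => f (v i)) p := by simp [eval]
    rw [h, h', hadd, hsmul, map_prodList f h0 hmul, ih, List.map_map]
    rfl

/-- binomials -/
def bin (u w : List ℕ) : NCPoly ℤ := [(1, u), (-1, w)]

theorem eval_bin {A : Type*} [NonUnitalRing A] (v : ℕ → A) (u w : List ℕ) :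
    eval v (bin u w) = prodList (u.map v) - prodList (w.map v) := by
  simp [eval, bin, sub_eq_add_neg]

/-- matrices over commutative algebras satisfy the identities of the matrices over the field -/
theorem eval_matrix {F : Type*} [Field F] [Infinite F] {n : ℕ} {p : NCPoly F}
    (hp : ∀ v : ℕ → Matrix (Fin n) (Fin n) F, eval v p = 0) {C : Type*} [CommRing C]
    [Algebra F C] (v : ℕ → Matrix (Fin n) (Fin n) C) : eval v p = 0 := by
  let G : ℕ → Matrix (Fin n) (Fin n) (MvPolynomial (ℕ × Fin n × Fin n) F) := fun i =>
    Matrix.of fun a b => MvPolynomial.X (i, a, b)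
  have hG : eval G p = 0 := by
    refine Matrix.ext fun a b => MvPolynomial.funext fun t => ?_
    let f : Matrix (Fin n) (Fin n) (MvPolynomial (ℕ × Fin n × Fin n) F) →ₐ[F]
        Matrix (Fin n) (Fin n) F := (MvPolynomial.aeval t).mapMatrix
    have h := eval_map f (map_zero f) (map_add f) (map_mul f) (fun k x => map_smul f k x) G p
    rw [hp] at h
    have h' := congrFun (congrFun h a) b
    simpa [f, MvPolynomial.aeval_eq_eval] using h'
  let f : Matrix (Fin n) (Fin n) (MvPolynomial (ℕ × Fin n × Fin n) F) →ₐ[F]
      Matrix (Fin n) (Fin n) C := (MvPolynomial.aeval fun q => v q.1 q.2.1 q.2.2).mapMatrix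
  have h := eval_map f (map_zero f) (map_add f) (map_mul f) (fun k x => map_smul f k x) G p
  rw [hG, map_zero] at h
  have hv : (fun i => f (G i)) = v := by
    funext i
    ext a b
    simp [f, G]
  rw [hv] at h
  exact h.symm

end Pool.Agent.Y584.EqProb
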