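import Mathlib
import Pool.Agent.Y584.EqProb.Defs
import Pool.Agent.Y584.EqProb.Auto

/-!
The algebra attached to a generalised Collatz map: a quotient of the free algebra by the largest
ideal in the kernel of a linear functional that recognises the halting configurations.
-/

namespace Pool.Agent.Y584.EqProb

open Pool.Agent.Helper707.Rel

/-- the largest ideal in the kernel of a linear functional, as a ring congruence -/
def kerCon {F R : Type*} [Field F] [Ring R] [Algebra F R] (χ : R →ₗ[F] F) : RingCon R where
  r p q := ∀ b c, χ (b * p * c) = χ (b * q * c)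
  iseqv := ⟨fun _ _ _ => rfl, fun h b c => (h b c).symm, fun h h' b c => (h b c).trans (h' b c)⟩
  add' h h' b c := by simp [mul_add, add_mul, h b c, h' b c]
  mul' {w x y z} h h' b c := by
    have e1 := h b (y * c)
    have e2 := h' (b * x) c
    simp only [mul_assoc] at e1 e2 ⊢
    rw [e1, e2]

theorem kerCon_iff {F R : Type*} [Field F] [Ring R] [Algebra F R] (χ : R →ₗ[F] F) (p q : R) :
    kerCon χ p q ↔ ∀ b c, χ (b * p * c) = χ (b * q * c) := Iff.rfl

section

variable (F : Type*) [Field F] (n : ℕ) (f : ℕ)

/-- the matrix of a letter -/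
noncomputable def lm (l : ℕ) : Matrix (Fin n) (Fin n) (MvPolynomial ℕ F) :=
  Matrix.of fun a b => if (a : ℕ) = (typ f l).1 ∧ (b : ℕ) = (typ f l).2 then MvPolynomial.X l else 0

/-- the monomial of a word -/
noncomputable def mon (w : List ℕ) : MvPolynomial ℕ F := (w.map MvPolynomial.X).prod

theorem mon_eq (w : List ℕ) :
    mon F w = MvPolynomial.monomial (Multiset.toFinsupp (w : Multiset ℕ)) 1 := by
  induction w with
  | nil => simp [mon]
  | cons l w ih =>
    have h1 : mon F (l :: w) = MvPolynomial.X l * mon F w := by simp [mon]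
    have h2 : ((l :: w : List ℕ) : Multiset ℕ) = {l} + (w : Multiset ℕ) := rfl
    rw [h1, ih, h2, map_add, Multiset.toFinsupp_singleton, MvPolynomial.X,
      MvPolynomial.monomial_mul, one_mul]

variable {n f}

theorem typ_lt (hn : 2 < n) (hf : f < n) (l : ℕ) : (typ f l).1 < n ∧ (typ f l).2 < n := by
  simp only [typ]
  split_ifs <;> (constructor <;> simp <;> omega)

theorem prod_lm (hn : 2 < n) (hf : f < n) (w : List ℕ) (a b : Fin n) :
    (w.map (lm F n f)).prod a b = if pth f (some (a : ℕ)) w = some (b : ℕ) then mon F w else 0 := by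
  induction w generalizing a with
  | nil =>
    simp only [List.map_nil, List.prod_nil, Matrix.one_apply, pth, List.foldl_nil, mon,
      Option.some.injEq, Fin.val_inj]
  | cons l w ih =>
    rw [List.map_cons, List.prod_cons, Matrix.mul_apply, pth_cons]
    have h2 := (typ_lt hn hf l).2
    by_cases ha : (a : ℕ) = (typ f l).1
    · have ha' : some (a : ℕ) = some (typ f l).1 := by rw [ha]
      rw [if_pos ha', Finset.sum_eq_single ⟨(typ f l).2, h2⟩]
      · rw [ih]
        have h3 : lm F n f l a ⟨(typ f l).2, h2⟩ = MvPolynomial.X l := by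
          simp [lm, ha]
        have h4 : mon F (l :: w) = MvPolynomial.X l * mon F w := by simp [mon]
        rw [h3, h4]
        split_ifs <;> simp
      · intro c _ hc
        have h3 : lm F n f l a c = 0 := by
          simp only [lm, Matrix.of_apply]
          rw [if_neg]
          rintro ⟨_, h⟩
          exact hc (Fin.ext h)
        rw [h3, zero_mul]
      · intro h
        exact absurd (Finset.mem_univ _) h
    · have ha' : ¬ some (a : ℕ) = some (typ f l).1 := by simpa using ha
      rw [if_neg ha', pth_none, if_neg (by simp)]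
      refine Finset.sum_eq_zero fun c _ => ?_
      have h3 : lm F n f l a c = 0 := by
        simp only [lm, Matrix.of_apply]
        rw [if_neg]
        rintro ⟨h, _⟩
        exact ha h
      rw [h3, zero_mul]

/-- the free algebra -/
abbrev Fr := MonoidAlgebra F (FreeMonoid ℕ)

/-- a word as an element of the free algebra -/
noncomputable def wd (w : List ℕ) : Fr F := MonoidAlgebra.single (FreeMonoid.ofList w) 1

theorem wd_mul (u w : List ℕ) : wd F u * wd F w = wd F (u ++ w) := by
  simp [wd, MonoidAlgebra.single_mul_single]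

theorem wd_nil : wd F [] = 1 := rfl

theorem single_eq (w : FreeMonoid ℕ) (r : F) :
    (MonoidAlgebra.single w r : Fr F) = r • wd F w.toList := by
  simp [wd, MonoidAlgebra.smul_single]

variable (n f)

/-- the representation of the free algebra by matrices over polynomials -/
noncomputable def rho : Fr F →ₐ[F] Matrix (Fin n) (Fin n) (MvPolynomial ℕ F) :=
  MonoidAlgebra.lift F _ _ (FreeMonoid.lift (lm F n f))

theorem rho_wd (w : List ℕ) : rho F n f (wd F w) = (w.map (lm F n f)).prod := by
  rw [rho, wd, MonoidAlgebra.lift_single, one_smul, FreeMonoid.lift_apply]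
  rfl

variable (Y : Sys)

open scoped Classical in
/-- the functional on commutative polynomials -/
noncomputable def lam : MvPolynomial ℕ F →ₗ[F] F :=
  (MvPolynomial.basisMonomials ℕ F).constr F fun μ =>
    if ∃ w' : List ℕ, runFrom Y .start w' = .fin ∧ Multiset.toFinsupp (w' : Multiset ℕ) = μ
    then 1 else 0

open scoped Classical in
theorem lam_mon (w : List ℕ) : lam F Y (mon F w) =
    if ∃ w' : List ℕ, runFrom Y .start w' = .fin ∧ w'.Perm w then 1 else 0 := by
  have h : MvPolynomial.monomial (Multiset.toFinsupp (w : Multiset ℕ)) (1 : F)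
      = MvPolynomial.basisMonomials ℕ F (Multiset.toFinsupp (w : Multiset ℕ)) := by simp
  rw [mon_eq, h, lam, Module.Basis.constr_basis]
  simp only [EmbeddingLike.apply_eq_iff_eq, Multiset.coe_eq_coe]

/-- the functional on the free algebra -/
noncomputable def chi (hn : 0 < n) (hf : f < n) : Fr F →ₗ[F] F where
  toFun z := lam F Y (rho F n f z ⟨0, hn⟩ ⟨f, hf⟩)
  map_add' x y := by rw [map_add, Matrix.add_apply, map_add]
  map_smul' r x := by rw [map_smul, Matrix.smul_apply, map_smul]; rfl

theorem chi_of_rho {hn : 0 < n} {hf : f < n} {z : Fr F} (hz : rho F n f z = 0) :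
    chi F n f Y hn hf z = 0 := by
  change lam F Y (rho F n f z ⟨0, hn⟩ ⟨f, hf⟩) = 0
  rw [hz, Matrix.zero_apply, map_zero]

open scoped Classical in
theorem chi_wd (hn : 2 < n) (hf : f < n) (hf1 : f ≠ 1) (hf2 : f ≠ 2) (w : List ℕ) :
    chi F n f Y (by omega) hf (wd F w) = if runFrom Y .start w = .fin then 1 else 0 := by
  change lam F Y (rho F n f (wd F w) ⟨0, _⟩ ⟨f, hf⟩) = _
  rw [rho_wd, prod_lm F hn hf]
  by_cases h : runFrom Y .start w = .fin
  · rw [if_pos h, if_pos (pth_of_run Y h), lam_mon, if_pos ⟨w, h, List.Perm.refl w⟩]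
  · rw [if_neg h]
    by_cases hp : pth f (some 0) w = some f
    · rw [if_pos hp, lam_mon, if_neg]
      rintro ⟨w', hr, hw⟩
      have := run_of_perm Y hf1 hf2 hp hr hw
      subst this
      exact h hr
    · rw [if_neg hp, map_zero]

theorem chi_congr (hn : 2 < n) (hf : f < n) (hf1 : f ≠ 1) (hf2 : f ≠ 2) {u w : List ℕ}
    (h : Eqv Y u w) : kerCon (chi F n f Y (by omega) hf) (wd F u) (wd F w) := by
  rw [kerCon_iff]
  intro b c
  induction b using MonoidAlgebra.induction_linear with
  | zero => simp
  | add x y hx hy => simp only [add_mul, map_add, hx, hy]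
  | single wb r =>
    induction c using MonoidAlgebra.induction_linear with
    | zero => simp
    | add x y hx hy => simp only [mul_add, map_add, hx, hy]
    | single wc s =>
      rw [single_eq, single_eq]
      simp only [smul_mul_assoc, mul_smul_comm, map_smul, wd_mul]
      rw [chi_wd F n f Y hn hf hf1 hf2, chi_wd F n f Y hn hf hf1 hf2]
      have h' : (runFrom Y .start (wb.toList ++ u ++ wc.toList))
          = (runFrom Y .start (wb.toList ++ w ++ wc.toList)) := by
        simp only [runFrom_append]
        rw [h]
      rw [h']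

end

end Pool.Agent.Y584.EqProb
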