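import Mathlib
import Pool.Agent.Y584.EqProb.Model

/-!
The relations, and the algebras in `M(n)` and `S(n)` in which they hold.
-/

namespace Pool.Agent.Y584.EqProb

open Pool.Agent.Helper707.Rel

universe u

/-- the relations -/
def rels (Y : Sys) : List (List ℕ × List ℕ) :=
  [(List.replicate Y.m 2 ++ [4], [4, 3]), ([5, 3], [5])] ++
  ((List.range Y.m).map fun i =>
    (0 :: (List.replicate i 2 ++ [4]), if Y.H i = true then [0, 5] else [0, 6 + i])) ++
  ((List.range Y.m).map fun i => ([6 + i, 3], List.replicate (Y.a i) 2 ++ [6 + i])) ++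
  ((List.range Y.m).map fun i => ([6 + i, 1], List.replicate (Y.e i) 2 ++ [4, 1]))

variable (Y : Sys)

theorem rels_spec (hm : 0 < Y.m) : ∀ q ∈ rels Y, Eqv Y q.1 q.2 ∧ q.1 ≠ [] ∧ q.2 ≠ [] := by
  intro q hq
  simp only [rels, List.mem_append, List.mem_cons, List.not_mem_nil, or_false, List.mem_map,
    List.mem_range] at hq
  rcases hq with (((rfl | rfl) | ⟨i, hi, rfl⟩) | ⟨i, hi, rfl⟩) | ⟨i, hi, rfl⟩
  · exact ⟨eqv_s Y hm, by simp, by simp⟩
  · exact ⟨eqv_h Y, by simp, by simp⟩
  · by_cases h : Y.H i = true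
    · rw [if_pos h]
      exact ⟨eqv_halt Y hi h, by simp, by simp⟩
    · rw [if_neg h]
      exact ⟨eqv_work Y hi (by simpa using h), by simp, by simp⟩
  · exact ⟨eqv_move Y i, by simp, by simp⟩
  · exact ⟨eqv_end Y i, by simp, by simp⟩

/-- the hypotheses -/
def hyps (Y : Sys) : List (NCPoly ℤ) := (rels Y).map fun q => bin q.1 q.2

/-- the conclusion attached to a number -/
def concl (N : ℕ) : NCPoly ℤ := bin (0 :: (List.replicate N 2 ++ [4, 1])) [0, 5, 1]

section

variable (F : Type u) [Field F] (n f : ℕ)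

/-- the images of the letters under a homomorphism with the congruence as kernel satisfy the
relations -/
theorem rels_hold {A : Type u} [Ring A] (π : Fr F →+* A) (hn : 2 < n) (hf : f < n) (hf1 : f ≠ 1)
    (hf2 : f ≠ 2) (hm : 0 < Y.m)
    (hπ : ∀ p q, π p = π q ↔ kerCon (chi F n f Y (by omega) hf) p q) :
    (∀ q ∈ rels Y, prodList (q.1.map fun l => π (wd F [l])) =
      prodList (q.2.map fun l => π (wd F [l]))) ∧
    ∀ N, ¬ Y.Halts N → prodList ((0 :: (List.replicate N 2 ++ [4, 1])).map fun l => π (wd F [l])) ≠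
      prodList ([0, 5, 1].map fun l => π (wd F [l])) := by
  have key : ∀ w : List ℕ, (w.map fun l => π (wd F [l])).prod = π (wd F w) := by
    intro w
    induction w with
    | nil => simp [wd_nil]
    | cons l w ih => rw [List.map_cons, List.prod_cons, ih, ← map_mul, wd_mul]; rfl
  have key' : ∀ w : List ℕ, w ≠ [] → prodList (w.map fun l => π (wd F [l])) = π (wd F w) := by
    intro w hw
    rw [prodList_eq (by simpa using hw), key]
  refine ⟨fun q hq => ?_, fun N hN h => ?_⟩
  · obtain ⟨h1, h2, h3⟩ := rels_spec Y hm q hq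
    rw [key' _ h2, key' _ h3, hπ]
    exact chi_congr F n f Y hn hf hf1 hf2 h1
  · rw [key' _ (by simp), key' _ (by simp), hπ, kerCon_iff] at h
    have h' := h 1 1
    simp only [one_mul, mul_one] at h'
    rw [chi_wd F n f Y hn hf hf1 hf2, chi_wd F n f Y hn hf hf1 hf2, run_num Y hN, run_halt] at h'
    simp at h'

/-- the quotient algebra -/
abbrev Quo (hn : 0 < n) (hf : f < n) := (kerCon (chi F n f Y hn hf)).Quotient

theorem quo_eq {hn : 0 < n} {hf : f < n} (p q : Fr F) :
    (kerCon (chi F n f Y hn hf)).mk' p = (kerCon (chi F n f Y hn hf)).mk' q ↔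
      kerCon (chi F n f Y hn hf) p q := RingCon.eq _

theorem quo_surj {hn : 0 < n} {hf : f < n} (x : Quo Y F n f hn hf) :
    ∃ p, (kerCon (chi F n f Y hn hf)).mk' p = x := RingCon.mk'_surjective _ x

theorem quo_inM [Infinite F] (hn : 0 < n) (hf : f < n) : InM F n (Quo Y F n f hn hf) := by
  intro p hp v
  choose g hg using fun i => quo_surj Y F n f (v i)
  let π := (kerCon (chi F n f Y hn hf)).mk'
  have h := eval_map π (map_zero π) (map_add π) (map_mul π) (fun (k : F) x => rfl) g p
  have hv : (fun i => π (g i)) = v := funext hg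
  rw [hv] at h
  rw [← h, ← map_zero π, quo_eq, kerCon_iff]
  intro b c
  rw [mul_zero, zero_mul, map_zero]
  apply chi_of_rho
  have h2 := eval_map (rho F n f) (map_zero _) (map_add _) (map_mul _)
    (fun (k : F) x => map_smul _ k x) g p
  rw [map_mul, map_mul, h2, eval_matrix hp, mul_zero, zero_mul]

/-- the quasi-identities of the numbers which do not halt fail in `M(n)` -/
theorem not_holdsM [Infinite F] (hn : 2 < n) (hm : 0 < Y.m) {N : ℕ} (hN : ¬ Y.Halts N) :
    ¬ HoldsM F n (hyps Y, concl N) := by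
  intro h
  have hn0 : 0 < n := by omega
  have h1 := h (Quo Y F n 0 hn0 hn0) (quo_inM Y F n 0 hn0 hn0)
  obtain ⟨h2, h3⟩ := rels_hold Y F n 0 (kerCon (chi F n 0 Y hn0 hn0)).mk' hn hn0 (by omega)
    (by omega) hm (fun p q => quo_eq Y F n 0 p q)
  have h4 := h1 (fun l => (kerCon (chi F n 0 Y hn0 hn0)).mk' (wd F [l])) (by
    intro u hu
    simp only [hyps, List.mem_map] at hu
    obtain ⟨q, hq, rfl⟩ := hu
    rw [eval_bin, h2 q hq, sub_self])
  simp only [concl] at h4
  rw [eval_bin, sub_eq_zero] at h4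
  exact h3 N hN h4

end

end Pool.Agent.Y584.EqProb
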