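import Mathlib
import Pool.Agent.Y584.EqProb.Mem

/-!
The quasi-identity of a halting number holds in all associative rings.
-/

namespace Pool.Agent.Y584.EqProb

open Pool.Agent.Helper707.Rel

variable (Y : Sys)

/-- the derivation in a ring with unit -/
theorem derive {R : Type*} [Ring R] (V : ℕ → R)
    (hV : ∀ q ∈ rels Y, (q.1.map V).prod = (q.2.map V).prod) {N : ℕ} (hm : 0 < Y.m)
    (hN : Y.Halts N) :
    V 0 * V 2 ^ N * V 4 * V 1 = V 0 * V 5 * V 1 := by
  have r1 : V 2 ^ Y.m * V 4 = V 4 * V 3 := by
    have := hV (List.replicate Y.m 2 ++ [4], [4, 3]) (by simp [rels])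
    simpa [List.map_replicate, List.prod_replicate] using this
  have r2 : V 5 * V 3 = V 5 := by
    have := hV ([5, 3], [5]) (by simp [rels])
    simpa using this
  have r3 : ∀ i, i < Y.m → Y.H i = true → V 0 * V 2 ^ i * V 4 = V 0 * V 5 := by
    intro i hi hH
    have := hV (0 :: (List.replicate i 2 ++ [4]), if Y.H i = true then [0, 5] else [0, 6 + i]) (by
      simp only [rels, List.mem_append, List.mem_map, List.mem_range]
      left; left; right
      exact ⟨i, hi, rfl⟩)
    rw [if_pos hH] at this
    simpa [List.map_replicate, List.prod_replicate, mul_assoc] using this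
  have r4 : ∀ i, i < Y.m → Y.H i = false → V 0 * V 2 ^ i * V 4 = V 0 * V (6 + i) := by
    intro i hi hH
    have := hV (0 :: (List.replicate i 2 ++ [4]), if Y.H i = true then [0, 5] else [0, 6 + i]) (by
      simp only [rels, List.mem_append, List.mem_map, List.mem_range]
      left; left; right
      exact ⟨i, hi, rfl⟩)
    rw [if_neg (by simp [hH])] at this
    simpa [List.map_replicate, List.prod_replicate, mul_assoc] using this
  have r5 : ∀ i, i < Y.m → V (6 + i) * V 3 = V 2 ^ Y.a i * V (6 + i) := by
    intro i hi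
    have := hV ([6 + i, 3], List.replicate (Y.a i) 2 ++ [6 + i]) (by
      simp only [rels, List.mem_append, List.mem_map, List.mem_range]
      left; right
      exact ⟨i, hi, rfl⟩)
    simpa [List.map_replicate, List.prod_replicate] using this
  have r6 : ∀ i, i < Y.m → V (6 + i) * V 1 = V 2 ^ Y.e i * V 4 * V 1 := by
    intro i hi
    have := hV ([6 + i, 1], List.replicate (Y.e i) 2 ++ [4, 1]) (by
      simp only [rels, List.mem_append, List.mem_map, List.mem_range]
      right
      exact ⟨i, hi, rfl⟩)
    simpa [List.map_replicate, List.prod_replicate, mul_assoc] using this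
  have s1 : ∀ q : ℕ, V 2 ^ (Y.m * q) * V 4 = V 4 * V 3 ^ q := by
    intro q
    induction q with
    | zero => simp
    | succ q ih =>
      rw [Nat.mul_succ, pow_add, mul_assoc, r1, ← mul_assoc, ih, pow_succ, mul_assoc]
  have s2 : ∀ q : ℕ, V 5 * V 3 ^ q = V 5 := by
    intro q
    induction q with
    | zero => simp
    | succ q ih => rw [pow_succ, ← mul_assoc, ih, r2]
  have s5 : ∀ i, i < Y.m → ∀ q : ℕ, V (6 + i) * V 3 ^ q = V 2 ^ (Y.a i * q) * V (6 + i) := by
    intro i hi q
    induction q with
    | zero => simp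
    | succ q ih =>
      rw [pow_succ, ← mul_assoc, ih, mul_assoc, r5 i hi, ← mul_assoc, ← pow_add, Nat.mul_succ]
  have s7 : ∀ N : ℕ, V 0 * V 2 ^ N * V 4 = V 0 * V 2 ^ (N % Y.m) * V 4 * V 3 ^ (N / Y.m) := by
    intro N
    conv_lhs => rw [← Nat.mod_add_div N Y.m]
    rw [pow_add]
    simp only [mul_assoc]
    rw [s1]
  induction hN with
  | halt N h =>
    have hi := Nat.mod_lt N hm
    rw [s7, r3 _ hi h, mul_assoc (V 0), s2]
  | step N h _ ih =>
    have hi := Nat.mod_lt N hm
    rw [s7, r4 _ hi h, mul_assoc (V 0), s5 _ hi, mul_assoc, mul_assoc, r6 _ hi]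
    rw [← ih]
    simp only [Sys.next, pow_add, mul_assoc]

/-- the same with words -/
theorem derive' {R : Type*} [Ring R] (V : ℕ → R)
    (hV : ∀ q ∈ rels Y, (q.1.map V).prod = (q.2.map V).prod) {N : ℕ} (hm : 0 < Y.m)
    (hN : Y.Halts N) :
    ((0 :: (List.replicate N 2 ++ [4, 1])).map V).prod = ([0, 5, 1].map V).prod := by
  have h := derive Y V hV hm hN
  simpa [List.map_replicate, List.prod_replicate, List.prod_append, mul_assoc] using h

/-- the quasi-identity of a halting number holds in all rings -/
theorem holdsIn {A : Type*} [NonUnitalRing A] (hm : 0 < Y.m) {N : ℕ} (hN : Y.Halts N) :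
    HoldsIn (hyps Y, concl N) A := by
  intro v hv
  let ι : A → Unitization ℤ A := fun a => (a : Unitization ℤ A)
  have hι : Function.Injective ι := Unitization.inr_injective
  have hmap : ∀ w : List ℕ, w ≠ [] → ι (prodList (w.map v)) = (w.map fun l => ι (v l)).prod := by
    intro w hw
    rw [map_prodList ι (Unitization.inr_zero ℤ) (fun x y => Unitization.inr_mul ℤ x y),
      prodList_eq (by simpa using hw), List.map_map]
    rfl
  have h1 : ∀ q ∈ rels Y, (q.1.map fun l => ι (v l)).prod = (q.2.map fun l => ι (v l)).prod := by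
    intro q hq
    obtain ⟨_, h2, h3⟩ := rels_spec Y hm q hq
    rw [← hmap _ h2, ← hmap _ h3]
    have := hv (bin q.1 q.2) (by simp only [hyps, List.mem_map]; exact ⟨q, hq, rfl⟩)
    rw [eval_bin, sub_eq_zero] at this
    rw [this]
  have h2 := derive' Y (fun l => ι (v l)) h1 hm hN
  simp only [concl]
  rw [eval_bin, sub_eq_zero]
  apply hι
  rw [hmap _ (by simp), hmap _ (by simp)]
  exact h2

end Pool.Agent.Y584.EqProb
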