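import Mathlib
import Pool.Agent.Y584.EqProb.Mem

/-!
The standard identity of degree six for upper triangular matrices of order four with two zero
diagonal entries.
-/

namespace Pool.Agent.Y584.EqProb

open Pool.Agent.Helper707.Rel

universe u

section

variable {C : Type*} [CommRing C]

/-- the allowed positions -/
def Alw (q : Fin 4 × Fin 4) : Prop :=
  q.1 ≤ q.2 ∧ ¬ (q.1 = 0 ∧ q.2 = 0) ∧ ¬ (q.1 = 3 ∧ q.2 = 3)

/-- the matrices with all nonzero entries in allowed positions -/
def Al (M : Matrix (Fin 4) (Fin 4) C) : Prop := ∀ i j, ¬ Alw (i, j) → M i j = 0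

theorem Al.zero : Al (0 : Matrix (Fin 4) (Fin 4) C) := fun _ _ _ => rfl

theorem Al.add {M N : Matrix (Fin 4) (Fin 4) C} (hM : Al M) (hN : Al N) : Al (M + N) :=
  fun i j h => by rw [Matrix.add_apply, hM i j h, hN i j h, add_zero]

theorem Al.mul {M N : Matrix (Fin 4) (Fin 4) C} (hM : Al M) (hN : Al N) : Al (M * N) := by
  intro i j h
  rw [Matrix.mul_apply]
  refine Finset.sum_eq_zero fun k _ => ?_
  by_cases h1 : Alw (i, k)
  · by_cases h2 : Alw (k, j)
    · exfalso
      apply h
      simp only [Alw] at h1 h2 ⊢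
      obtain ⟨a1, a2, a3⟩ := h1
      obtain ⟨b1, b2, b3⟩ := h2
      refine ⟨a1.trans b1, fun hh => ?_, fun hh => ?_⟩
      · apply a2
        refine ⟨hh.1, ?_⟩
        have : k ≤ 0 := by rw [← hh.2]; exact b1
        exact le_antisymm this (Fin.zero_le k)
      · apply b3
        refine ⟨?_, hh.2⟩
        have : (3 : Fin 4) ≤ k := by rw [← hh.1]; exact a1
        exact le_antisymm (Fin.le_last k) this
    · rw [hN k j h2, mul_zero]
  · rw [hM i k h1, zero_mul]

/-- a nonzero product of different allowed units is short -/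
theorem short : ∀ (L : List (Fin 4 × Fin 4)) (q : Fin 4 × Fin 4), (∀ x ∈ q :: L, Alw x) →
    (q :: L).Nodup → ((q :: L).map fun x => Matrix.single x.1 x.2 (1 : C)).prod ≠ 0 →
    (q.1 : ℕ) + (q.2 : ℕ) + L.length ≤ 5 := by
  intro L
  induction L with
  | nil =>
    intro q hq _ _
    have := hq q (by simp)
    obtain ⟨i, j⟩ := q
    simp only [Alw] at this
    simp only [List.length_nil]
    obtain ⟨h1, h2, h3⟩ := this
    have hi := i.isLt
    have hj := j.isLt
    by_contra hc
    apply h3
    constructor <;> (apply Fin.ext; simp; omega)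
  | cons q' L ih =>
    intro q hq hnd hne
    have h1 : ((q' :: L).map fun x => Matrix.single x.1 x.2 (1 : C)).prod ≠ 0 := by
      intro h
      apply hne
      rw [List.map_cons, List.prod_cons, h, mul_zero]
    have h2 := ih q' (fun x hx => hq x (List.mem_cons_of_mem _ hx)) (List.nodup_cons.1 hnd).2 h1
    have h3 : q.2 = q'.1 := by
      by_contra hcon
      apply hne
      rw [List.map_cons, List.prod_cons, List.map_cons, List.prod_cons, ← mul_assoc,
        Matrix.single_mul_single_of_ne _ _ _ _ hcon, zero_mul]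
    have h4 : q ≠ q' := by
      intro h
      apply (List.nodup_cons.1 hnd).1
      rw [h]; simp
    have h5 := (hq q (by simp)).1
    have h6 := (hq q' (by simp)).1
    have h7 : (q.1 : ℕ) + (q.2 : ℕ) < (q'.1 : ℕ) + (q'.2 : ℕ) := by
      by_contra hcon
      apply h4
      have e5 : (q.1 : ℕ) ≤ (q.2 : ℕ) := h5
      have e6 : (q'.1 : ℕ) ≤ (q'.2 : ℕ) := h6
      have e3 : (q.2 : ℕ) = (q'.1 : ℕ) := by rw [h3]
      ext <;> omega
    rw [List.length_cons]
    omega

theorem std_zero {n : ℕ} (hn : 6 ≤ n) (M : Fin n → Matrix (Fin 4) (Fin 4) C)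
    (hM : ∀ i, Al (M i)) :
    ∑ σ : Equiv.Perm (Fin n), (Equiv.Perm.sign σ : ℤ) • (List.ofFn fun i => M (σ i)).prod = 0 := by
  let alt := MultilinearMap.alternatization (MultilinearMap.mkPiAlgebraFin C n
    (Matrix (Fin 4) (Fin 4) C))
  have halt : ∀ v : Fin n → Matrix (Fin 4) (Fin 4) C, alt v =
      ∑ σ : Equiv.Perm (Fin n), (Equiv.Perm.sign σ : ℤ) • (List.ofFn fun i => v (σ i)).prod := by
    intro v
    simp only [alt, MultilinearMap.alternatization_apply, MultilinearMap.mkPiAlgebraFin_apply,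
      MultilinearMap.domDomCongr_apply]
    rfl
  rw [← halt]
  have hexp : M = fun i => ∑ q : Fin 4 × Fin 4, M i q.1 q.2 • Matrix.single q.1 q.2 (1 : C) := by
    funext i
    conv_lhs => rw [Matrix.matrix_eq_sum_single (M i)]
    rw [Fintype.sum_prod_type]
    simp
  have h0 : ∀ v : Fin n → Matrix (Fin 4) (Fin 4) C, alt v = alt.toMultilinearMap v := fun _ => rfl
  rw [hexp, h0, MultilinearMap.map_sum]
  refine Finset.sum_eq_zero fun φ _ => ?_
  rw [MultilinearMap.map_smul_univ]
  by_cases hal : ∀ i, Alw (φ i)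
  · by_cases hinj : Function.Injective φ
    · rw [← h0, halt, Finset.sum_eq_zero, smul_zero]
      intro σ _
      have h1 : (List.ofFn fun i => Matrix.single (φ (σ i)).1 (φ (σ i)).2 (1 : C))
          = (List.ofFn fun i => φ (σ i)).map fun x => Matrix.single x.1 x.2 (1 : C) := by
        rw [List.map_ofFn]; rfl
      rw [h1]
      by_contra hne
      have h2 : ((List.ofFn fun i => φ (σ i)).map fun x => Matrix.single x.1 x.2 (1 : C)).prod ≠ 0 := by
        intro h
        apply hne
        rw [h, smul_zero]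
      have hlen : (List.ofFn fun i => φ (σ i)).length = n := by simp
      have hnd : (List.ofFn fun i => φ (σ i)).Nodup := by
        rw [List.nodup_ofFn]
        exact hinj.comp σ.injective
      have hall : ∀ x ∈ (List.ofFn fun i => φ (σ i)), Alw x := by
        intro x hx
        rw [List.mem_ofFn] at hx
        obtain ⟨i, rfl⟩ := hx
        exact hal _
      generalize (List.ofFn fun i => φ (σ i)) = L at hlen hnd hall h2
      cases L with
      | nil => simp at hlen; omega
      | cons q L =>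
        have h3 := short L q hall hnd h2
        have h4 : 1 ≤ (q.1 : ℕ) + (q.2 : ℕ) := by
          have := (hall q (by simp)).2.1
          by_contra hcon
          apply this
          constructor <;> (apply Fin.ext; simp; omega)
        rw [List.length_cons] at hlen
        omega
    · have hni : ¬ Function.Injective fun i => Matrix.single (φ i).1 (φ i).2 (1 : C) := by
        intro h
        apply hinj
        intro a b hab
        apply h
        simp only [hab]
      rw [← h0, AlternatingMap.map_eq_zero_of_not_injective _ _ hni, smul_zero]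
  · push Not at hal
    obtain ⟨i, hi⟩ := hal
    rw [Finset.prod_eq_zero (Finset.mem_univ i) (hM i _ _ hi), zero_smul]

end

section

variable (Y : Sys) (F : Type u) [Field F]

theorem al_letter (l : ℕ) : Al (rho F 4 3 (wd F [l])) := by
  intro i j h
  rw [rho_wd, List.map_cons, List.map_nil, List.prod_cons, List.prod_nil, mul_one, lm,
    Matrix.of_apply, if_neg]
  rintro ⟨h1, h2⟩
  apply h
  obtain ⟨i, hi⟩ := i
  obtain ⟨j, hj⟩ := j
  simp only [typ] at h1 h2
  simp only [Alw, Fin.mk_le_mk, Fin.ext_iff]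
  have e3 : ((3 : Fin 4) : ℕ) = 3 := rfl
  have e0 : ((0 : Fin 4) : ℕ) = 0 := rfl
  rw [e3, e0]
  split_ifs at h1 h2 <;> simp at h1 h2 <;> omega

/-- the part of the quotient algebra that lies in `S(6)` -/
def part (h0 : 0 < 4) (hf : 3 < 4) : NonUnitalSubalgebra F (Quo Y F 4 3 h0 hf) where
  carrier := {x | ∃ g, Al (rho F 4 3 g) ∧ (kerCon (chi F 4 3 Y h0 hf)).mk' g = x}
  zero_mem' := ⟨0, by rw [map_zero]; exact Al.zero, map_zero _⟩
  add_mem' := by
    rintro _ _ ⟨g, hg, rfl⟩ ⟨g', hg', rfl⟩
    exact ⟨g + g', by rw [map_add]; exact hg.add hg', map_add _ _ _⟩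
  mul_mem' := by
    rintro _ _ ⟨g, hg, rfl⟩ ⟨g', hg', rfl⟩
    exact ⟨g * g', by rw [map_mul]; exact hg.mul hg', map_mul _ _ _⟩
  smul_mem' := by
    rintro c _ ⟨g, hg, rfl⟩
    refine ⟨c • g, ?_, rfl⟩
    intro i j h
    rw [map_smul, Matrix.smul_apply, hg i j h, smul_zero]

theorem part_inS {n : ℕ} (hn : 6 ≤ n) (h0 : 0 < 4) (hf : 3 < 4) : InS n (part Y F h0 hf) := by
  intro v
  choose g hg hgv using fun i => (v i).2
  let π := (kerCon (chi F 4 3 Y h0 hf)).mk'
  apply Subtype.val_injective
  have hne : ∀ σ : Equiv.Perm (Fin n), (List.ofFn fun i => v (σ i)) ≠ [] := by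
    intro σ h
    have := congrArg List.length h
    simp at this
    omega
  have hval : ∀ σ : Equiv.Perm (Fin n),
      ((prodList (List.ofFn fun i => v (σ i)) : part Y F h0 hf) : Quo Y F 4 3 h0 hf)
        = π (List.ofFn fun i => g (σ i)).prod := by
    intro σ
    rw [map_prodList (Subtype.val : part Y F h0 hf → Quo Y F 4 3 h0 hf) rfl (fun _ _ => rfl),
      prodList_eq (by simpa using hne σ), map_list_prod, List.map_ofFn, List.map_ofFn]
    congr 2
    funext i
    exact (hgv (σ i)).symm
  rw [AddSubmonoidClass.coe_finsetSum]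
  have h1 : ∀ σ : Equiv.Perm (Fin n), (((Equiv.Perm.sign σ : ℤ) •
      prodList (List.ofFn fun i => v (σ i)) : part Y F h0 hf) : Quo Y F 4 3 h0 hf)
      = π ((Equiv.Perm.sign σ : ℤ) • (List.ofFn fun i => g (σ i)).prod) := by
    intro σ
    rw [map_zsmul, ← hval]
    rfl
  rw [Finset.sum_congr rfl fun σ _ => h1 σ, ← map_sum]
  change π _ = 0
  rw [← map_zero π, quo_eq, kerCon_iff]
  intro b c
  rw [mul_zero, zero_mul, map_zero]
  apply chi_of_rho
  have h2 : rho F 4 3 (∑ σ : Equiv.Perm (Fin n), (Equiv.Perm.sign σ : ℤ) •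
      (List.ofFn fun i => g (σ i)).prod) = 0 := by
    rw [map_sum, ← std_zero hn (fun i => rho F 4 3 (g i)) hg]
    refine Finset.sum_congr rfl fun σ _ => ?_
    rw [map_zsmul, map_list_prod, List.map_ofFn]
    rfl
  rw [map_mul, map_mul, h2, mul_zero, zero_mul]

/-- the quasi-identities of the numbers which do not halt fail in `S(n)` -/
theorem not_holdsS {n : ℕ} (hn : 6 ≤ n) (hm : 0 < Y.m) {N : ℕ} (hN : ¬ Y.Halts N) :
    ¬ HoldsS F n (hyps Y, concl N) := by
  intro h
  have h0 : 0 < 4 := by omega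
  have hf : 3 < 4 := by omega
  have h1 := h (part Y F h0 hf) (part_inS Y F hn h0 hf)
  obtain ⟨h2, h3⟩ := rels_hold Y F 4 3 (kerCon (chi F 4 3 Y h0 hf)).mk' (by omega) hf (by omega)
    (by omega) hm (fun p q => quo_eq Y F 4 3 p q)
  let V : ℕ → part Y F h0 hf := fun l => ⟨(kerCon (chi F 4 3 Y h0 hf)).mk' (wd F [l]),
    wd F [l], al_letter F l, rfl⟩
  have hV : ∀ w : List ℕ, ((prodList (w.map V) : part Y F h0 hf) : Quo Y F 4 3 h0 hf)
      = prodList (w.map fun l => (kerCon (chi F 4 3 Y h0 hf)).mk' (wd F [l])) := by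
    intro w
    rw [map_prodList (Subtype.val : part Y F h0 hf → Quo Y F 4 3 h0 hf) rfl (fun _ _ => rfl),
      List.map_map]
    rfl
  have h4 := h1 V (by
    intro u hu
    simp only [hyps, List.mem_map] at hu
    obtain ⟨q, hq, rfl⟩ := hu
    rw [eval_bin, sub_eq_zero]
    apply Subtype.val_injective
    rw [hV, hV]
    exact h2 q hq)
  simp only [concl] at h4
  rw [eval_bin, sub_eq_zero] at h4
  apply h3 N hN
  rw [← hV, ← hV, h4]

end

end Pool.Agent.Y584.EqProb
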