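import Mathlib
import Pool.Agent.Y584.EqProb.Std
import Pool.Agent.Y584.EqProb.Deriv
import Pool.Agent.Helper707.Num

/-!
Undecidability of the equality problem in `M(n)` for `n ≥ 3` and in `S(n)` for `n ≥ 6`.
-/

namespace Pool.Agent.Y584.EqProb

open Pool.Agent.Helper707.Rel Pool.Agent.Helper707.Num

universe u

theorem computable_concl (S p : ℕ) : Computable fun x : ℕ => concl (S * p ^ x) := by
  have h1 : Primrec fun x : ℕ => S * p ^ x :=
    Primrec.nat_mul.comp (Primrec.const S)
      ((Primrec₂.unpaired'.1 Nat.Primrec.pow).comp (Primrec.const p) Primrec.id)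
  have h2 : Primrec fun x : ℕ => List.replicate (S * p ^ x) 2 := by
    have h3 : Primrec fun x : ℕ => (List.range (S * p ^ x)).map fun _ => 2 :=
      Primrec.list_map (Primrec.list_range.comp h1) (Primrec.const 2).to₂
    refine h3.of_eq fun x => ?_
    simp [List.map_const']
  have h4 : Primrec fun x : ℕ => 0 :: (List.replicate (S * p ^ x) 2 ++ [4, 1]) :=
    Primrec.list_cons.comp (Primrec.const 0) (Primrec.list_append.comp h2 (Primrec.const [4, 1]))
  have h5 : Primrec fun x : ℕ => ((1 : ℤ), 0 :: (List.replicate (S * p ^ x) 2 ++ [4, 1])) :=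
    Primrec.pair (Primrec.const 1) h4
  exact (Primrec.list_cons.comp h5 (Primrec.const [((-1 : ℤ), [0, 5, 1])])).to_comp

theorem main : ∃ R : List (NCPoly ℤ), ∀ (F : Type u) [Field F] [Infinite F],
    (∀ n, 3 ≤ n → ¬ ComputablePred fun w : NCPoly ℤ => HoldsM F n (R, w)) ∧
    (∀ n, 6 ≤ n → ¬ ComputablePred fun w : NCPoly ℤ => HoldsS F n (R, w)) := by
  obtain ⟨Y, S, p, hm, hund⟩ := exists_undecidable_sys
  refine ⟨hyps Y, fun F _ _ => ⟨fun n hn hc => hund ?_, fun n hn hc => hund ?_⟩⟩
  · refine ComputablePred.computable_of_manyOneReducible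
      ⟨fun x => concl (S * p ^ x), computable_concl S p, fun x => ?_⟩ hc
    constructor
    · intro h A _ _ _ _ _
      exact holdsIn Y hm h
    · intro h
      by_contra hN
      exact not_holdsM Y F n (by omega) hm hN h
  · refine ComputablePred.computable_of_manyOneReducible
      ⟨fun x => concl (S * p ^ x), computable_concl S p, fun x => ?_⟩ hc
    constructor
    · intro h A _ _ _ _ _
      exact holdsIn Y hm h
    · intro h
      by_contra hN
      exact not_holdsS Y F hn hm hN h

end Pool.Agent.Y584.EqProb
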